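import Pool.Agent.W488.IX.Stm

/-! Project IX: IX-HOM, the homogeneous function. -/

set_option autoImplicit false

namespace Pool.Agent.W305.IX.Hom

open MeasureTheory Set Filter Topology
open Pool.Agent.W488.IW Pool.Agent.W488.IX

theorem kp_eq {p R s : ℝ} (hp : 2 < p) (h0 : 0 ≤ s) (hR : s ≤ R) : kp p R s = s ^ (p - 2) := by
  unfold kp
  split_ifs with h1
  · have : s = 0 := le_antisymm h1 h0
    rw [this, Real.zero_rpow (by linarith)]
  · rfl

theorem kp_div {p R s : ℝ} (hp : 2 < p) (hp3 : p < 3) (h0 : 0 ≤ s) (hR : s ≤ R) :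
    kp p R s / s = s ^ (p - 3) := by
  rcases h0.eq_or_lt with h | h
  · rw [← h, div_zero, Real.zero_rpow (by linarith)]
  · rw [kp_eq hp h0 hR, show p - 3 = (p - 2) - 1 by ring, Real.rpow_sub_one h.ne']

theorem int_pow {a t : ℝ} (ha : -1 < a) (_ht : 0 ≤ t) :
    ∫ s in (0 : ℝ)..t, s ^ a = t ^ (a + 1) / (a + 1) := by
  rw [integral_rpow (Or.inl ha), Real.zero_rpow (by linarith), sub_zero]

theorem hh1_eq {p R t : ℝ} (hp : 2 < p) (hp3 : p < 3) (h0 : 0 ≤ t) (hR : t ≤ R) :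
    hh1 (kp p R) t = t ^ (p - 2) / (p - 2) := by
  unfold hh1
  have h1 : ∫ s in (0 : ℝ)..t, kp p R s / s = ∫ s in (0 : ℝ)..t, s ^ (p - 3) := by
    refine intervalIntegral.integral_congr fun s hs => ?_
    rw [uIcc_of_le h0] at hs
    exact kp_div hp hp3 hs.1 (hs.2.trans hR)
  rw [h1, int_pow (by linarith) h0, show p - 3 + 1 = p - 2 by ring]

theorem om1_eq {p R t : ℝ} (hp : 2 < p) (h0 : 0 ≤ t) (hR : t ≤ R) :
    om1 (kp p R) t = t ^ (p - 1) / (p - 1) := by
  unfold om1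
  have h1 : ∫ s in (0 : ℝ)..t, kp p R s = ∫ s in (0 : ℝ)..t, s ^ (p - 2) := by
    refine intervalIntegral.integral_congr fun s hs => ?_
    rw [uIcc_of_le h0] at hs
    exact kp_eq hp hs.1 (hs.2.trans hR)
  rw [h1, int_pow (by linarith) h0, show p - 2 + 1 = p - 1 by ring]

theorem hh_eq {p R t : ℝ} (hp : 2 < p) (hp3 : p < 3) (h0 : 0 ≤ t) (hR : t ≤ R) :
    hh (kp p R) t = t ^ (p - 1) / ((p - 1) * (p - 2)) := by
  unfold hh
  have h1 : ∫ s in (0 : ℝ)..t, hh1 (kp p R) s = ∫ s in (0 : ℝ)..t, s ^ (p - 2) / (p - 2) := by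
    refine intervalIntegral.integral_congr fun s hs => ?_
    rw [uIcc_of_le h0] at hs
    exact hh1_eq hp hp3 hs.1 (hs.2.trans hR)
  rw [h1, intervalIntegral.integral_div, int_pow (by linarith) h0, div_div,
    show p - 2 + 1 = p - 1 by ring]

theorem om_eq {p R t : ℝ} (hp : 2 < p) (h0 : 0 ≤ t) (hR : t ≤ R) :
    om (kp p R) t = t ^ p / (p * (p - 1)) := by
  unfold om
  have h1 : ∫ s in (0 : ℝ)..t, om1 (kp p R) s = ∫ s in (0 : ℝ)..t, s ^ (p - 1) / (p - 1) := by
    refine intervalIntegral.integral_congr fun s hs => ?_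
    rw [uIcc_of_le h0] at hs
    exact om1_eq hp hs.1 (hs.2.trans hR)
  rw [h1, intervalIntegral.integral_div, int_pow (by linarith) h0, div_div,
    show p - 1 + 1 = p by ring]

theorem pow_aux {p s : ℝ} (hp : 2 < p) (h0 : 0 ≤ s) :
    s * (2 * s) ^ (p - 2) = 2 ^ (p - 2) * s ^ (p - 1) := by
  rw [Real.mul_rpow (by norm_num) h0]
  have : s ^ (p - 1) = s ^ (p - 2) * s := by
    rw [show p - 1 = (p - 2) + 1 by ring, Real.rpow_add_one' h0 (by linarith)]
  rw [this]; ring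

theorem pow_aux2 {p s : ℝ} (_hp : 2 < p) (h0 : 0 ≤ s) :
    (2 * s) ^ (p - 1) = 2 * 2 ^ (p - 2) * s ^ (p - 1) := by
  rw [Real.mul_rpow (by norm_num) h0]
  have : (2 : ℝ) ^ (p - 1) = 2 ^ (p - 2) * 2 := by
    rw [show p - 1 = (p - 2) + 1 by ring, Real.rpow_add_one (by norm_num)]
  rw [this]; ring

theorem f2_eq {p R x : ℝ} (hp : 2 < p) (hp3 : p < 3) (h0 : 0 ≤ x) (hR : 2 * x ≤ R) :
    f2 (kp p R) x = 2 ^ (p - 2) * x ^ p / (p * (p - 2)) := by
  unfold f2
  have h1 : ∫ s in (0 : ℝ)..x, s * hh1 (kp p R) (2 * s) =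
      ∫ s in (0 : ℝ)..x, (2 ^ (p - 2) / (p - 2)) * s ^ (p - 1) := by
    refine intervalIntegral.integral_congr fun s hs => ?_
    rw [uIcc_of_le h0] at hs
    have e := pow_aux hp hs.1
    rw [hh1_eq hp hp3 (by linarith [hs.1]) (by linarith [hs.2]), ← mul_div_assoc, e]
    ring
  rw [h1, intervalIntegral.integral_const_mul, int_pow (by linarith) h0]
  have h2 : p - 2 ≠ 0 := by linarith
  have h3 : p ≠ 0 := by linarith
  rw [show p - 1 + 1 = p by ring]
  field_simp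

theorem g2_eq {p R y : ℝ} (hp : 2 < p) (hp3 : p < 3) (h0 : 0 ≤ y) (hR : 2 * y ≤ R) :
    g2 (kp p R) y = 2 ^ (p - 2) * (3 - p) * y ^ p / (p * (p - 1) * (p - 2)) := by
  unfold g2
  have h2 : p - 2 ≠ 0 := by linarith
  have h3 : p ≠ 0 := by linarith
  have h4 : p - 1 ≠ 0 := by linarith
  have h1 : ∫ s in (0 : ℝ)..y, (hh (kp p R) (2 * s) - s * hh1 (kp p R) (2 * s)) =
      ∫ s in (0 : ℝ)..y, (2 ^ (p - 2) * (3 - p) / ((p - 1) * (p - 2))) * s ^ (p - 1) := by
    refine intervalIntegral.integral_congr fun s hs => ?_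
    rw [uIcc_of_le h0] at hs
    have e := pow_aux hp hs.1
    have e2 := pow_aux2 hp hs.1
    rw [hh1_eq hp hp3 (by linarith [hs.1]) (by linarith [hs.2]), ← mul_div_assoc, e,
      hh_eq hp hp3 (by linarith [hs.1]) (by linarith [hs.2]), e2]
    field_simp
    ring
  rw [h1, intervalIntegral.integral_const_mul, int_pow (by linarith) h0,
    show p - 1 + 1 = p by ring]
  field_simp

theorem main : S_HOM := by
  intro p R x y hp hp5 _hR hx hy hxy
  have hp3 : p < 3 := by linarith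
  have h2 : p - 2 ≠ 0 := by linarith
  have h3 : p ≠ 0 := by linarith
  have h4 : p - 1 ≠ 0 := by linarith
  unfold fX Wq
  split_ifs with h
  · rw [f2_eq hp hp3 hx (by linarith), g2_eq hp hp3 hy (by linarith)]
    field_simp
  · unfold fI
    have hs : 0 ≤ x + y := by linarith
    rw [hh_eq hp hp3 hs (by linarith), om_eq hp hs (by linarith)]
    have e : (x + y) ^ p = (x + y) ^ (p - 1) * (x + y) := by
      conv_lhs => rw [show p = (p - 1) + 1 by ring]
      rw [Real.rpow_add_one' hs (by linarith)]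
    rw [e]
    field_simp
    ring

end Pool.Agent.W305.IX.Hom
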